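import Pool.Agent.QSX.StmtsE

set_option autoImplicit false

/-! # Row SLN: the datum of the special linear group is split -/

namespace Pool.Agent.QSX.H66

open Matrix Finset

/-- the index set of the roots -/
abbrev IX (k : ℕ) : Type := {p : Fin k × Fin k // p.1 < p.2}

/-- elementary matrices -/
noncomputable def ee {k : ℕ} (l : IX k) : Matrix (Fin k) (Fin k) ℝ := Matrix.single l.1.1 l.1.2 1

/-- the roots -/
noncomputable def rr {k : ℕ} (l : IX k) : (datSL k).b →ₗ[ℝ] ℝ where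
  toFun c := c.1 l.1.1 - c.1 l.1.2
  map_add' c d := by
    show (c.1 l.1.1 + d.1 l.1.1) - (c.1 l.1.2 + d.1 l.1.2) = _
    ring
  map_smul' r c := by
    show r * c.1 l.1.1 - r * c.1 l.1.2 = r * (c.1 l.1.1 - c.1 l.1.2)
    ring

lemma rr_apply {k : ℕ} (l : IX k) (c : (datSL k).b) : rr l c = c.1 l.1.1 - c.1 l.1.2 := rfl

/-- centring of a vector -/
noncomputable def cen {k : ℕ} (hk : 2 ≤ k) (v : Fin k → ℝ) : (datSL k).b :=
  ⟨fun i => v i - (∑ j, v j) / k, by
    show ∑ i : Fin k, (v i - (∑ j, v j) / (k : ℝ)) = 0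
    rw [Finset.sum_sub_distrib, Finset.sum_const, Finset.card_univ, Fintype.card_fin,
      nsmul_eq_mul]
    have : (k : ℝ) ≠ 0 := by
      have : k ≠ 0 := by omega
      exact_mod_cast this
    field_simp
    ring⟩

lemma rr_cen {k : ℕ} (hk : 2 ≤ k) (v : Fin k → ℝ) (l : IX k) :
    rr l (cen hk v) = v l.1.1 - v l.1.2 := by
  rw [rr_apply]
  show (v l.1.1 - (∑ j, v j) / k) - (v l.1.2 - (∑ j, v j) / k) = _
  ring

lemma SU_ee {k : ℕ} (l : IX k) : SU (ee l) := by
  intro a b h
  rw [ee, Matrix.single_apply, if_neg]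
  rintro ⟨h1, h2⟩
  have := l.2
  rw [h1, h2] at this
  exact absurd this (not_lt.mpr h)

lemma sum_ee {k : ℕ} (f : IX k → ℝ) (a b : Fin k) :
    (∑ l, f l • ee l) a b = if h : a < b then f ⟨(a, b), h⟩ else 0 := by
  rw [Matrix.sum_apply]
  simp only [Matrix.smul_apply, smul_eq_mul]
  by_cases h : a < b
  · rw [dif_pos h, Finset.sum_eq_single ⟨(a, b), h⟩]
    · rw [ee, Matrix.single_apply, if_pos ⟨rfl, rfl⟩, mul_one]
    · intro l _ hl
      rw [ee, Matrix.single_apply, if_neg, mul_zero]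
      rintro ⟨h1, h2⟩
      exact hl (Subtype.ext (Prod.ext h1 h2))
    · intro h1; exact absurd (Finset.mem_univ _) h1
  · rw [dif_neg h]
    refine Finset.sum_eq_zero fun l _ => ?_
    rw [SU_ee l a b (not_lt.mp h), mul_zero]

lemma span_ee (k : ℕ) : Submodule.span ℝ (Set.range (ee (k := k))) = (datSL k).n := by
  apply le_antisymm
  · rw [Submodule.span_le]
    rintro _ ⟨l, rfl⟩
    exact SU_ee l
  · intro x hx
    have hx' : SU (x : Matrix (Fin k) (Fin k) ℝ) := hx
    have e : x = ∑ l : IX k, ((x : Matrix (Fin k) (Fin k) ℝ) l.1.1 l.1.2) • ee l := by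
      ext a b
      refine Eq.trans ?_ (sum_ee (fun l : IX k => (x : Matrix (Fin k) (Fin k) ℝ) l.1.1 l.1.2) a b).symm
      by_cases h : a < b
      · rw [dif_pos h]
      · rw [dif_neg h]
        exact hx' a b (not_lt.mp h)
    rw [e]
    refine Submodule.sum_mem _ fun l _ => ?_
    exact Submodule.smul_mem _ _ (Submodule.subset_span ⟨l, rfl⟩)

lemma lin_ee (k : ℕ) : LinearIndependent ℝ (ee (k := k)) := by
  rw [Fintype.linearIndependent_iff]
  intro g hg l
  have h := sum_ee g l.1.1 l.1.2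
  rw [hg, dif_pos l.2] at h
  exact h.symm

lemma wt_ee {k : ℕ} (l : IX k) (c : Fin k → ℝ) :
    diagonal c * ee l - ee l * diagonal c = (c l.1.1 - c l.1.2) • ee l := by
  ext a b
  rw [Matrix.sub_apply, Matrix.diagonal_mul, Matrix.mul_diagonal, Matrix.smul_apply, smul_eq_mul,
    ee, Matrix.single_apply]
  by_cases h : l.1.1 = a ∧ l.1.2 = b
  · rw [if_pos h, ← h.1, ← h.2]
    ring
  · rw [if_neg h]
    ring

lemma mexp_ee {k : ℕ} (hk : 2 ≤ k) (x : ℝ) (l : IX k) : mexp (x • ee l) = 1 + x • ee l := by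
  have h2 : (x • ee l) ^ 2 = 0 := by
    rw [pow_two, Matrix.smul_mul, Matrix.mul_smul, ee, Matrix.single_mul_single_of_ne,
      smul_zero, smul_zero]
    exact (ne_of_lt l.2).symm
  have h3 : ∀ j, 2 ≤ j → (x • ee l) ^ j = 0 := by
    intro j hj
    obtain ⟨i, rfl⟩ := Nat.exists_eq_add_of_le hj
    rw [pow_add, h2, zero_mul]
  rw [mexp]
  obtain ⟨n, rfl⟩ := Nat.exists_eq_add_of_le hk
  rw [show 2 + n + 1 = (n + 1) + 1 + 1 by ring, Finset.sum_range_succ', Finset.sum_range_succ']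
  rw [Finset.sum_eq_zero]
  · simp
    exact add_comm _ _
  · intro j _
    rw [h3 _ (by omega), smul_zero]

lemma ue_ee_val {k : ℕ} (hk : 2 ≤ k) (x : ℝ) (l : IX k) :
    ((ue (x • ee l) : (Matrix (Fin k) (Fin k) ℝ)ˣ) : Matrix (Fin k) (Fin k) ℝ) =
      1 + x • ee l := by
  rw [ue_val (SU.smul (SU_ee l) x), mexp_ee hk]

lemma ue_ee_inv {k : ℕ} (hk : 2 ≤ k) (x : ℝ) (l : IX k) :
    (((ue (x • ee l))⁻¹ : (Matrix (Fin k) (Fin k) ℝ)ˣ) : Matrix (Fin k) (Fin k) ℝ) =
      1 - x • ee l := by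
  rw [ue_inv_val (SU.smul (SU_ee l) x), ← neg_smul, mexp_ee hk, neg_smul, sub_eq_add_neg]

lemma comm_calc {k : ℕ} (A B : Matrix (Fin k) (Fin k) ℝ) (hA : A * A = 0) (hB : B * B = 0)
    (h : A * B * A = 0) (h' : B * A * B = 0) :
    (1 + A) * (1 + B) * (1 - A) * (1 - B) = 1 + A * B - B * A := by
  have e : (1 + A) * (1 + B) * (1 - A) * (1 - B) =
      1 + A * B - B * A - A * A - B * B - A * B * A + A * A * B + B * A * B + (A * B * A) * B
        - A * (B * B) := by
    noncomm_ring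
  rw [e, hA, hB, h, h']
  simp

/-- the commutator formula -/
noncomputable def LL {k : ℕ} (l l' : IX k) : List (IX k × ℕ × ℕ × ℚ) :=
  if h : l.1.2 = l'.1.1 then [(⟨(l.1.1, l'.1.2), l.2.trans (h ▸ l'.2)⟩, 1, 1, 1)]
  else if h' : l'.1.2 = l.1.1 then [(⟨(l'.1.1, l.1.2), l'.2.trans (h' ▸ l.2)⟩, 1, 1, -1)]
  else []

lemma LL_rt {k : ℕ} (l l' : IX k) : ∀ t ∈ LL l l', 1 ≤ t.2.1 ∧ 1 ≤ t.2.2.1 ∧
    rr t.1 = (t.2.1 : ℝ) • rr l + (t.2.2.1 : ℝ) • rr l' := by
  intro t ht
  unfold LL at ht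
  split_ifs at ht with h h'
  · rw [List.mem_singleton] at ht
    subst ht
    refine ⟨le_rfl, le_rfl, ?_⟩
    apply LinearMap.ext
    intro c
    show c.1 l.1.1 - c.1 l'.1.2 = ((1 : ℕ) : ℝ) * (c.1 l.1.1 - c.1 l.1.2) +
      ((1 : ℕ) : ℝ) * (c.1 l'.1.1 - c.1 l'.1.2)
    rw [h]
    push_cast
    ring
  · rw [List.mem_singleton] at ht
    subst ht
    refine ⟨le_rfl, le_rfl, ?_⟩
    apply LinearMap.ext
    intro c
    show c.1 l'.1.1 - c.1 l.1.2 = ((1 : ℕ) : ℝ) * (c.1 l.1.1 - c.1 l.1.2) +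
      ((1 : ℕ) : ℝ) * (c.1 l'.1.1 - c.1 l'.1.2)
    rw [h']
    push_cast
    ring
  · simp at ht

lemma LL_nodup {k : ℕ} (l l' : IX k) : ((LL l l').map fun t => t.1).Nodup := by
  unfold LL
  split_ifs <;> simp

lemma ee_mul_ne {k : ℕ} {l l' : IX k} (h : l.1.2 ≠ l'.1.1) : ee l * ee l' = 0 := by
  rw [ee, ee, Matrix.single_mul_single_of_ne _ _ _ _ h]

lemma ee_mul {k : ℕ} (l l' : IX k) (h : l.1.2 = l'.1.1) (h2 : l.1.1 < l'.1.2) :
    ee l * ee l' = ee (⟨(l.1.1, l'.1.2), h2⟩ : IX k) := by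
  obtain ⟨⟨i, j⟩, hl⟩ := l
  obtain ⟨⟨p, q⟩, hl'⟩ := l'
  simp only at h
  subst h
  rw [ee, ee, ee, Matrix.single_mul_single_same, one_mul]

lemma com_ee {k : ℕ} (hk : 2 ≤ k) (l l' : IX k) (x y : ℝ) :
    ue (x • ee l) * ue (y • ee l') * (ue (x • ee l))⁻¹ * (ue (y • ee l'))⁻¹ =
    ((LL l l').map fun t => ue (((t.2.2.2 : ℝ) * x ^ t.2.1 * y ^ t.2.2.1) • ee t.1)).prod := by
  have hAA : (x • ee l) * (x • ee l) = 0 := by
    rw [Matrix.smul_mul, Matrix.mul_smul, ee_mul_ne (ne_of_lt l.2).symm, smul_zero, smul_zero]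
  have hBB : (y • ee l') * (y • ee l') = 0 := by
    rw [Matrix.smul_mul, Matrix.mul_smul, ee_mul_ne (ne_of_lt l'.2).symm, smul_zero, smul_zero]
  have key : (x • ee l) * (y • ee l') = 0 ∨ (y • ee l') * (x • ee l) = 0 := by
    by_cases h : l.1.2 = l'.1.1
    · right
      rw [Matrix.smul_mul, Matrix.mul_smul, ee_mul_ne, smul_zero, smul_zero]
      have h1 := l.2
      have h2 := l'.2
      rw [h] at h1
      exact (ne_of_lt (h1.trans h2)).symm
    · left
      rw [Matrix.smul_mul, Matrix.mul_smul, ee_mul_ne h, smul_zero, smul_zero]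
  have hABA : (x • ee l) * (y • ee l') * (x • ee l) = 0 := by
    rcases key with h | h
    · rw [h, zero_mul]
    · rw [mul_assoc, h, mul_zero]
  have hBAB : (y • ee l') * (x • ee l) * (y • ee l') = 0 := by
    rcases key with h | h
    · rw [mul_assoc, h, mul_zero]
    · rw [h, zero_mul]
  apply Units.ext
  rw [Units.val_mul, Units.val_mul, Units.val_mul, ue_ee_val hk, ue_ee_val hk, ue_ee_inv hk,
    ue_ee_inv hk, comm_calc _ _ hAA hBB hABA hBAB]
  unfold LL
  split_ifs with h h'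
  · rw [List.map_singleton, List.prod_singleton, ue_ee_val hk]
    have h0 : (y • ee l') * (x • ee l) = 0 := by
      rw [Matrix.smul_mul, Matrix.mul_smul, ee_mul_ne, smul_zero, smul_zero]
      have h1 := l.2
      have h2 := l'.2
      rw [h] at h1
      exact (ne_of_lt (h1.trans h2)).symm
    rw [h0, sub_zero]
    congr 1
    rw [Matrix.smul_mul, Matrix.mul_smul, smul_smul]
    rw [ee_mul l l' h (l.2.trans (h ▸ l'.2))]
    congr 1
    push_cast
    ring
  · rw [List.map_singleton, List.prod_singleton, ue_ee_val hk]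
    have h0 : (x • ee l) * (y • ee l') = 0 := by
      rw [Matrix.smul_mul, Matrix.mul_smul, ee_mul_ne h, smul_zero, smul_zero]
    rw [h0, add_zero, sub_eq_add_neg]
    congr 1
    rw [Matrix.smul_mul, Matrix.mul_smul, smul_smul, ← neg_smul]
    rw [ee_mul l' l h' (l'.2.trans (h' ▸ l.2))]
    congr 1
    push_cast
    ring
  · rw [List.map_nil, List.prod_nil, Units.val_one]
    have h0 : (x • ee l) * (y • ee l') = 0 := by
      rw [Matrix.smul_mul, Matrix.mul_smul, ee_mul_ne h, smul_zero, smul_zero]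
    have h1 : (y • ee l') * (x • ee l) = 0 := by
      rw [Matrix.smul_mul, Matrix.mul_smul, ee_mul_ne h', smul_zero, smul_zero]
    rw [h0, h1, add_zero, sub_zero]

lemma nonprop_rr {k : ℕ} (hk : 2 ≤ k) (l l' : IX k) (hl : l ≠ l') (c : ℝ) :
    rr l ≠ c • rr l' := by
  intro h
  have key : ∀ v : Fin k → ℝ, v l.1.1 - v l.1.2 = c * (v l'.1.1 - v l'.1.2) := by
    intro v
    have h1 := congrArg (fun f => f (cen hk v)) h
    simp only [LinearMap.smul_apply, smul_eq_mul, rr_cen] at h1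
    exact h1
  have h1 := key (Pi.single l.1.1 1)
  have h2 := key (Pi.single l.1.2 1)
  have hne : l.1.1 ≠ l.1.2 := ne_of_lt l.2
  have hne' : l'.1.1 ≠ l'.1.2 := ne_of_lt l'.2
  simp only [Pi.single_apply] at h1 h2
  rw [if_pos trivial, if_neg hne.symm] at h1
  rw [if_neg hne, if_pos trivial] at h2
  by_cases a1 : l'.1.1 = l.1.1
  · by_cases a2 : l'.1.2 = l.1.2
    · exact hl (Subtype.ext (Prod.ext a1.symm a2.symm))
    · rw [if_neg a2] at h2
      rw [a1, if_neg hne] at h2
      norm_num at h2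
  · rw [if_neg a1] at h1
    by_cases a2 : l'.1.2 = l.1.1
    · by_cases a3 : l'.1.1 = l.1.2
      · have b1 := l.2
        have b2 := l'.2
        rw [a2, a3] at b2
        exact absurd b1 (not_lt.mpr b2.le)
      · rw [if_neg a3, a2, if_neg hne] at h2
        norm_num at h2
    · rw [if_neg a2] at h1
      norm_num at h1

theorem sln : SlnStmt := by
  intro k hk
  have h0 : 0 < k := by omega
  let z : Fin k := ⟨0, h0⟩
  let w : Fin k := ⟨k - 1, by omega⟩
  have hzw : z < w := by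
    rw [Fin.lt_def]
    show 0 < k - 1
    omega
  refine ⟨{
    ι := IX k
    fin := inferInstance
    dec := inferInstance
    e := ee
    span_e := span_ee k
    lin := lin_ee k
    rt := rr
    wt := fun l c => wt_ee l c.1
    pos := ?_
    sep := ?_
    nonprop := fun l l' hl c => nonprop_rr hk l l' hl c
    L := LL
    L_rt := LL_rt
    L_nodup := LL_nodup
    com := fun l l' _ x y => com_ee hk l l' x y
    J := Unit
    comp := fun _ => ()
    top := fun _ => ⟨(z, w), hzw⟩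
    comp_top := fun _ => rfl
    L_comp := fun _ _ _ _ => ⟨rfl, rfl⟩
    climb := ?_
    scal := ?_ }⟩
  · refine ⟨cen hk (fun i => -(i : ℝ)), ?_⟩
    intro l
    rw [rr_cen]
    have h1 : ((l.1.1 : ℕ) : ℝ) < ((l.1.2 : ℕ) : ℝ) := by
      exact_mod_cast (Fin.lt_def.mp l.2)
    linarith
  · intro a ha
    have h1 : ∀ i : Fin k, a.1 i = a.1 z := by
      intro i
      rcases eq_or_ne i z with h | h
      · rw [h]
      · have h2 : z < i := by
          rw [Fin.lt_def]
          show 0 < (i : ℕ)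
          rcases Nat.eq_zero_or_pos (i : ℕ) with h3 | h3
          · exact absurd (Fin.ext h3) h
          · exact h3
        have h3 := ha ⟨(z, i), h2⟩
        rw [rr_apply] at h3
        have h4 : a.1 z - a.1 i = 0 := h3
        linarith
    have h2 : ∑ i : Fin k, a.1 i = 0 := a.2
    rw [Finset.sum_congr rfl (fun i _ => h1 i), Finset.sum_const, Finset.card_univ,
      Fintype.card_fin, nsmul_eq_mul] at h2
    have h3 : (k : ℝ) ≠ 0 := by exact_mod_cast h0.ne'
    have h4 : a.1 z = 0 := by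
      rcases mul_eq_zero.mp h2 with h5 | h5
      · exact absurd h5 h3
      · exact h5
    apply Subtype.ext
    funext i
    exact (h1 i).trans h4
  · intro l hl
    by_cases hj : l.1.2 = w
    · have hi : z < l.1.1 := by
        rw [Fin.lt_def]
        show 0 < (l.1.1 : ℕ)
        rcases Nat.eq_zero_or_pos (l.1.1 : ℕ) with h3 | h3
        · exfalso
          apply hl
          apply Subtype.ext
          exact Prod.ext (Fin.ext h3) hj
        · exact h3
      refine ⟨⟨(z, l.1.1), hi⟩, ?_, ?_⟩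
      · intro h
        have h1 : z = l.1.1 := congrArg (fun t : IX k => t.1.1) h
        exact (ne_of_lt hi) h1
      · have e1 : ee l * ee (⟨(z, l.1.1), hi⟩ : IX k) = 0 := by
          apply ee_mul_ne
          exact (ne_of_lt (hi.trans l.2)).symm
        have e2 : ee (⟨(z, l.1.1), hi⟩ : IX k) * ee l = Matrix.single z l.1.2 1 := by
          rw [ee, ee, Matrix.single_mul_single_same, one_mul]
        intro h
        have h' : ee l * ee (⟨(z, l.1.1), hi⟩ : IX k) - ee (⟨(z, l.1.1), hi⟩ : IX k) * ee l = 0 := h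
        rw [e1, e2, zero_sub, neg_eq_zero] at h'
        have h1 := congrFun (congrFun h' z) l.1.2
        rw [Matrix.single_apply, if_pos ⟨rfl, rfl⟩] at h1
        exact one_ne_zero h1
    · have hj' : l.1.2 < w := by
        rw [Fin.lt_def]
        show (l.1.2 : ℕ) < k - 1
        have h1 := l.1.2.isLt
        rcases Nat.lt_or_ge (l.1.2 : ℕ) (k - 1) with h2 | h2
        · exact h2
        · exfalso
          apply hj
          apply Fin.ext
          show (l.1.2 : ℕ) = k - 1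
          omega
      refine ⟨⟨(l.1.2, w), hj'⟩, ?_, ?_⟩
      · intro h
        have h1 : l.1.2 = l.1.1 := congrArg (fun t : IX k => t.1.1) h
        exact (ne_of_lt l.2) h1.symm
      · have e1 : ee (⟨(l.1.2, w), hj'⟩ : IX k) * ee l = 0 := by
          apply ee_mul_ne
          exact (ne_of_lt (l.2.trans hj')).symm
        have e2 : ee l * ee (⟨(l.1.2, w), hj'⟩ : IX k) = Matrix.single l.1.1 w 1 := by
          rw [ee, ee, Matrix.single_mul_single_same, one_mul]
        intro h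
        have h' : ee l * ee (⟨(l.1.2, w), hj'⟩ : IX k) - ee (⟨(l.1.2, w), hj'⟩ : IX k) * ee l = 0 := h
        rw [e1, e2, sub_zero] at h'
        have h1 := congrFun (congrFun h' l.1.1) w
        rw [Matrix.single_apply, if_pos ⟨rfl, rfl⟩] at h1
        exact one_ne_zero h1
  · intro κ _
    refine ⟨κ () • LinearMap.id, ?_⟩
    intro l a
    rw [LinearMap.smul_apply, LinearMap.id_apply, map_smul, smul_eq_mul]

end Pool.Agent.QSX.H66
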